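import Mathlib
import Pool.Agent.TH829.RA.Final

/-!
# The Ramanujan conjecture for `GL(4)` over number fields, up to `ε`, at almost all places

Let `K` be a number field and let `π` be a unitary cuspidal automorphic representation of `GL_4` over `K`. Let `S` be
the set of the finite places at which `π_v` is not a twist of an unramified representation, `α_{i,v}` the Satake
parameters at `v ∉ S` (of the unramified twist of `π_v`), so that `π_v` is tempered iff `|α_{i,v}| = 1` for all
`i`. Write `M_v = max_i |α_{i,v}|` and `q_v = N v`, and let `C`, `C'` be the analytic conductors of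
`L(s, π × π~)` and of `L(s, ∧²π × (∧²π)~)`. We show, with constants `A` which depend only on `K`, the
orders of the poles of these two functions at `s = 1` (at most `1` and `36`), and on `θ`, `B` in the last statement:

* for every `X ≥ 3`: `∑_{v ∉ S, q_v ≤ X} M_v² / q_v ≤ A (1 + log log X + log C + log C')`;
* for every `θ ≤ 1/2` and `X ≥ 3`, the number of the places `v ∉ S` with `q_v ≤ X` and `M_v ≥ q_v^θ` is at most
  `A (1 + log log X + log C + log C') X^{1 - 2 θ}`;
* for every `θ > 0`, `θ ≤ 1/2`, and every `B > 1 / (2 θ)` there is a place `v ∉ S` with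
  `q_v ≤ A (1 + log C + log C')^B` and `M_v < q_v^θ`.

So for every `ε > 0` the bound `M_v < q_v^ε` holds at all the places outside a set of counting function
`O(X^{1 - 2 ε} log log X)`, and it holds already at some place of norm at most a power of the *logarithm* of the
conductors; by the first statement, `M_v < T` outside a set of places of upper logarithmic density at most `A / T²`,
with the same `A` for all `π`. The best bound known for all places is `M_v ≤ q_v^{9/22}` (Blomer, Brumley). For
`GL(2)` and `GL(3)` the largest parameter is controlled by the Hecke eigenvalue `a_v`. For `GL(4)` two large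
parameters can cancel in `a_v`; the exterior square, which is automorphic by the theorem of Kim (completed by
Henniart), detects them.

The structure `RankinSelberg` lists what is used of `L(s, Π × Π~)`, for `Π = π` and `Π = ∧²π` (an isobaric sum of
unitary cuspidal representations of `GL_{n_i}`, `∑ n_i = 6`): `|γ_{i,v}| < q_v^{1/2}` and the absolute convergence
for `Re s > 1` (Jacquet, Shalika); the local factors at `S` are `∏_i (1 - β_{i,v} q_v^{-s})⁻¹` with
`|β_{i,v}| < q_v`, with logarithms with nonnegative coefficients (Hoffstein, Ramakrishnan; Rudnick, Sarnak);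
`(s (s - 1))^r L(s, Π × Π~)` is entire, of polynomial growth in vertical strips (not assumed to be uniform in `π`),
and it has a functional equation (Jacquet, Piatetski-Shapiro, Shalika; Moeglin, Waldspurger). `Unit'` says that the
multiset of the parameters is stable under `z ↦ 1 / conj z` (the local components are unitary), `wedge` is the list
of the products `α_i α_j`, `i < j`.

The proof: the functional equation and the Phragmén-Lindelöf principle give
`log L(1 + δ, Π × Π~) ≤ A (1 + log (1/δ) + log C_Π)` for `0 < δ ≤ 1`; we take `δ = 1 / log X`. At most two of the `α_{i,v}` have absolute value `> 1`. By Newton's identities `M_v ≤ 4 |a_v|` or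
`M_v² ≤ 4 |p_2|`, `p_2 = a_v² - 2 e_2` the second power sum, `e_2` the eigenvalue of `∧²π`, if `M_v ≥ 32`; in both
cases `M_v² ≤ 16 |a_v|² + 256 |e_2|²`. The third statement follows from the prime ideal theorem, because at most
`2 log C` places divide the conductor.
-/

set_option autoImplicit false

namespace Pool.Agent.Results.MP_8410ab_nt.AlmostAllPlacesGL4

open NumberField IsDedekindDomain Pool.Agent.TH861.GL3 Pool.Agent.TH829.RA

/-- **The Ramanujan conjecture for `GL(4)`, up to `ε`, at almost all places.** -/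
theorem result (K : Type) [Field K] [NumberField K] (r r' : ℕ) :
    (∃ A : ℝ, 0 < A ∧ ∀ (S : Finset (HeightOneSpectrum (𝓞 K))) (α : PL S → Fin 4 → ℂ)
      (β : S → Fin (4 ^ 2) → ℂ) (κ : Fin (4 ^ 2 * Module.finrank ℚ K) → ℂ) (Q : ℝ)
      (β' : S → Fin (6 ^ 2) → ℂ) (κ' : Fin (6 ^ 2 * Module.finrank ℚ K) → ℂ) (Q' : ℝ),
      RankinSelberg r α β κ Q → RankinSelberg r' (fun v => wedge (α v)) β' κ' Q' → (∀ v, Unit' (α v)) →
      ∀ X : ℝ, 3 ≤ X →
      (∀ F : Finset (PL S), (∀ v ∈ F, (qq v.1 : ℝ) ≤ X) →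
        ∑ v ∈ F, rad (α v) ^ 2 / (qq v.1 : ℝ) ≤
          A * (1 + Real.log (Real.log X) + (Real.log (cond κ Q) + Real.log (cond κ' Q')))) ∧
      ∀ θ : ℝ, θ ≤ 1 / 2 →
        {v : PL S | (qq v.1 : ℝ) ≤ X ∧ (qq v.1 : ℝ) ^ θ ≤ rad (α v)}.Finite ∧
        (({v : PL S | (qq v.1 : ℝ) ≤ X ∧ (qq v.1 : ℝ) ^ θ ≤ rad (α v)}.ncard : ℕ) : ℝ) ≤
          A * (1 + Real.log (Real.log X) + (Real.log (cond κ Q) + Real.log (cond κ' Q'))) *
            X ^ (1 - 2 * θ)) ∧
    ∀ θ B : ℝ, 0 < θ → θ ≤ 1 / 2 → 1 / (2 * θ) < B →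
      ∃ A : ℝ, 0 < A ∧ ∀ (S : Finset (HeightOneSpectrum (𝓞 K))) (α : PL S → Fin 4 → ℂ)
        (β : S → Fin (4 ^ 2) → ℂ) (κ : Fin (4 ^ 2 * Module.finrank ℚ K) → ℂ) (Q : ℝ)
        (β' : S → Fin (6 ^ 2) → ℂ) (κ' : Fin (6 ^ 2 * Module.finrank ℚ K) → ℂ) (Q' : ℝ),
        RankinSelberg r α β κ Q → RankinSelberg r' (fun v => wedge (α v)) β' κ' Q' → (∀ v, Unit' (α v)) →
        ∏ v ∈ S, (qq v : ℝ) ≤ Q ^ 2 →
        ∃ v : PL S, (qq v.1 : ℝ) ≤ A * (1 + (Real.log (cond κ Q) + Real.log (cond κ' Q'))) ^ B ∧
          rad (α v) < (qq v.1 : ℝ) ^ θ := by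
  refine ⟨?_, fun θ B hθ0 hθ hB => ?_⟩
  · obtain ⟨A, hA, H⟩ := mertens4 K r r'
    refine ⟨A, hA, fun S α β κ Q β' κ' Q' h h' hU X hX =>
      ⟨H S α β κ Q β' κ' Q' h h' hU X hX, fun θ hθ => ⟨fin_le X _, ?_⟩⟩⟩
    have hX1 : 1 ≤ X := by linarith
    have := count_of (m := 1) (R := fun v => rad (α v)) hθ hX1 (fun F hF => by
      simpa using H S α β κ Q β' κ' Q' h h' hU X hX F hF)
    simpa using this
  · obtain ⟨δ, hδ, hδ1, G⟩ := least_place K (m := 1) (B := B) hθ (by push_cast; linarith) (by
      have : 1 - ((1 : ℕ) : ℝ) * (1 - 2 * θ) = 2 * θ := by push_cast; ring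
      rw [this]
      exact hB)
    obtain ⟨A, hA, H⟩ := mean4_le K r r'
    have hl : 0 ≤ Real.log (1 / δ) := Real.log_nonneg (by rw [le_div_iff₀ hδ]; linarith)
    obtain ⟨A', hA', G'⟩ := G (A * (1 + Real.log (1 / δ))) (by positivity)
    refine ⟨A', hA', fun S α β κ Q β' κ' Q' h h' hU hS => ?_⟩
    obtain ⟨h1, h2⟩ := H δ hδ hδ1 S α β κ Q β' κ' Q' h h' hU
    have hL := Real.log_nonneg (one_le_cond h)
    have hL' := Real.log_nonneg (one_le_cond h')
    have hc := card_S (κ := κ) h.one_le hS
    refine G' S _ (by linarith) (by linarith) (fun v => rad (α v)) (fun v => rad_nonneg _)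
      (by simpa using h1) ?_
    have h3 : ∑' v : PL S, (rad (α v) ^ 2 / (qq v.1 : ℝ)) ^ 1 * (qq v.1 : ℝ) ^ (-δ) ≤
        A * (1 + Real.log (1 / δ) + (Real.log (cond κ Q) + Real.log (cond κ' Q'))) := by simpa using h2
    refine h3.trans ?_
    rw [mul_assoc]
    refine mul_le_mul_of_nonneg_left ?_ hA.le
    nlinarith [mul_nonneg hl (add_nonneg hL hL')]

end Pool.Agent.Results.MP_8410ab_nt.AlmostAllPlacesGL4
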