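import Mathlib
import Pool.Agent.TH949.UL.Fin
import Pool.Agent.TH949.UL.DQ

/-!
# The Ramanujan conjecture for `GL(n)` over number fields: the least tempered place, the least small trace

Let `K` be a number field and let `π` be a unitary cuspidal automorphic representation of `GL_n` over `K`, `n ≥ 2`.
Let `S` be a finite set of finite places, containing those at which `π_v` is not a twist of an unramified
representation; if `n = 2` and `K` is totally real we assume that not all `π_v`, `v | ∞`, are discrete series (the
others are the Hilbert modular forms, for which Ramanujan's conjecture is known). Let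
`α_{i,v}`, `v ∉ S`, be the Satake parameters (of the unramified twist of `π_v`) and write `N v`
for the norm of `v` (`qq v` below). Let `C = Q² ∏_j (1 + |κ_j|)` be the analytic conductor of
`L(s, π × π~) / ζ_K(s)`: `Q²` is the conductor and `∏_j Γ_ℝ(s + κ_j)`, `j ≤ (n² - 1) [K : ℚ]`, the Gamma factor of its
functional equation. We show: for every `ε > 0` there is a constant `A` depending only on `K`, `n` and `ε` such that
for every such `π` there are a place `v ∉ S` and `k ≥ 1` with

  `(N v)^k ≤ A C^{1+ε}` and `|∑_i α_{i,v}^k| < 1`;

if `n = 2` or `n = 3`, `π_v` is tempered at this `v`, so that the least tempered place is at most `A C^{1+ε}`. `A` is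
independent of the level, of the infinity type and of `S`.

Only the Rankin-Selberg theory of Jacquet, Piatetski-Shapiro and Shalika is used of `π`: it is not assumed that
`L(s, π × π~) / ζ_K(s)` is holomorphic at the complex zeros of `ζ_K` (which is not known for `n ≥ 4`). Of `K` the proof
needs that `D(s) = s (s - 1) ξ_K(s)`, `ξ_K` the completed zeta function of `K`, has no real zeros, i.e. that `ζ_K` has
no zeros in `(0, 1)`. More generally `D` may be any function as in the structure `Den`. The first two parts of the
theorem say that the function `D` of `K = ℚ` is of this kind, so that the result holds for `K = ℚ` without any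
condition on `L(s, π × π~) / ζ(s)`, and that `D = 1` is; if the completed adjoint `L`-function is entire, as is
expected, one may take `D = 1`, and then there is no condition on `K`.

The structure `CuspidalGLn` lists what is used of `π`: for `v ∉ S`, `π_v` is unitary and `|α_{i,v}| < (N v)^{1/2}`
(Jacquet, Shalika); at `v ∈ S` the local factor of `L(s, π × π~) / ζ_K(s)` is
`∏_i (1 - β_{i,v} (N v)^{-s})⁻¹ ∏_{(v,i) ∈ T} (1 - γ_{v,i} (N v)^{-s})⁻¹` with `|β_{i,v}| < N v`, `|γ_{v,i}| = 1`, and
the logarithm of the first product has nonnegative coefficients; the norms `N v`, `(v, i) ∈ T`, are included in `C` in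
the theorem. For `n = 2, 3` the local factors of all unitary `π_v` which are not twists of unramified representations
are of this form: the `γ` are the roots of unity `≠ 1` of order `n` if `π_v` is supercuspidal and isomorphic to its
twist by the unramified character of order `n`, and `T` has no element above `v` otherwise. (`S` may also contain other
places at which `π_v` is tempered; then the `β_{i,v}` are `0` and the `γ_{v,i}` are the `α_{i,v} / α_{j,v}` but one.)
Finally `G(s) = D(s) L(s, π × π~) / ζ_K(s)` and `Ξ(s) = Q^s ∏_j Γ_ℝ(s + κ_j) G(s)` are entire, `G` is of polynomial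
growth in vertical strips (not assumed to be uniform in `π`), `Ξ(1 - s) = ω Ξ(s)`, `|ω| = 1`, the `κ_j` are closed
under conjugation, `Re κ_j > -1`, and one of them is `0` (this is so for `n ≥ 3`, and for `n = 2` with the exception
above).

The proof is a uniform version of Landau's theorem for the quotient of `L`-functions `F = G / D`. If all places
`v ∉ S` with `N v ≤ X` have `|∑_i α_{i,v}^k| ≥ 1` whenever `(N v)^k ≤ X`, the coefficients of `F(s) = ∑ c_n n^{-s}`
with `n ≤ X` are nonnegative. Hence the smoothed sum `∑ c_n n^{-s} V(log (Y / n))`, with a nonnegative kernel `V` whose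
Mellin transform vanishes at the finitely many zeros of `D` of height `O(log Y)` (a product of the kernels
`1 + e^{l (w - a)}`, the zeros being not real), is at `s = -3/2 + i t` at most what it is at `s = -3/2`, and
shifting the line of integration this contradicts the functional equation for some bounded `t` if
`Y ≥ A C`, `X = Y^{1 + ε}`.
-/

set_option autoImplicit false

namespace Pool.Agent.Results.MP_8410ab_nt.LeastSmallTraceGLn

open NumberField IsDedekindDomain Pool.Agent.TH861.GL3 Pool.Agent.TH949.UL

/-- **The least place with a small trace, and the least tempered place for `n ≤ 3`.** -/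
theorem result :
    (∃ CD, Den (fun s => s * (s - 1) * completedRiemannZeta₀ s + 1) CD) ∧ Den (fun _ => 1) 1 ∧
    ∀ (K : Type) [Field K] [NumberField K] (n : ℕ) (D : ℂ → ℂ) (CD : ℝ), Den D CD → ∀ ε : ℝ, 0 < ε →
    ∃ A : ℝ, 0 < A ∧ ∀ (S : Finset (HeightOneSpectrum (𝓞 K))) (α : PL S → Fin n → ℂ)
      (β : HeightOneSpectrum (𝓞 K) → Fin (n ^ 2) → ℂ) (T : Finset (HeightOneSpectrum (𝓞 K) × Fin (n ^ 2)))
      (γ : HeightOneSpectrum (𝓞 K) × Fin (n ^ 2) → ℂ) (κ : Fin ((n ^ 2 - 1) * Module.finrank ℚ K) → ℂ) (Q : ℝ),
      CuspidalGLn D α β T γ κ Q →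
      ∃ (v : PL S) (k : ℕ), 1 ≤ k ∧
        (qq v.1 : ℝ) ^ k ≤ A * (Q ^ 2 * (∏ j, (1 + ‖κ j‖)) * ∏ x ∈ T, (qq x.1 : ℝ)) ^ (1 + ε) ∧
        ‖∑ i, α v i ^ k‖ < 1 ∧ (n ≤ 3 → ∀ i, ‖α v i‖ = 1) :=
  ⟨den_DQ, den_one, fun K _ _ n _ _ hD _ hε => least_small_trace K n hD hε⟩

end Pool.Agent.Results.MP_8410ab_nt.LeastSmallTraceGLn
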