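import Mathlib

/-!
# The Ramanujan conjecture for many cusp forms on `GL(2)` at once

`K` is any number field and `π_1, ..., π_r` are unitary cuspidal representations of `GL_2(𝔸_K)` (Maass
forms, for example) which are not of solvable polyhedral type and whose lifts `Ad π_i` and
`A⁴ π_i = Sym⁴ π_i ⊗ ω_i⁻²` are pairwise inequivalent.  `α_i(v), β_i(v)` are the Satake parameters.

What is used of the `π_i` is `KnownMoments`: unitarity of the local components, and the averages over the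
primes (or the primes in a ray class) of the products of two of the real functions `1`, `λ(Ad π_i)(v)`,
`λ(A⁴ π_i)(v)`.  The lifts are cuspidal representations of `GL_3` and `GL_5` (Gelbart and Jacquet; Kim; Kim
and Shahidi), and these averages are the prime number theorem for their Rankin-Selberg `L`-functions.

The theorem: the set of primes at which all the `π_i` are non-tempered has upper density at most
`1 / (1 + 34 r)` (for `r = 1` this is the bound `1 / 35` of Kim and Shahidi), and for each `θ > 1/10` the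
set of the primes at which at least `θ r` of the `π_i` are non-tempered has upper density `O(1 / r)`.
-/

set_option autoImplicit false

namespace Pool.Agent.Results.MP_8410ab_nt.ManyForms

open NumberField IsDedekindDomain Filter Topology

variable {K : Type} [Field K] [NumberField K]

/-- The average of `g` over the primes of `K` of norm at most `N`. -/
noncomputable def avg (g : HeightOneSpectrum (𝓞 K) → ℝ) (N : ℕ) : ℝ :=
  (∑ᶠ v : {v : HeightOneSpectrum (𝓞 K) // Ideal.absNorm v.asIdeal ≤ N}, g v.1) /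
    (Nat.card {v : HeightOneSpectrum (𝓞 K) // Ideal.absNorm v.asIdeal ≤ N} : ℝ)

/-- The average of `g · 1_A` over the primes of norm at most `N` tends to `L`. -/
def Mean (A : Set (HeightOneSpectrum (𝓞 K))) (g : HeightOneSpectrum (𝓞 K) → ℝ) (L : ℝ) : Prop :=
  Tendsto (avg (A.indicator g)) atTop (𝓝 L)

/-- The upper density of the set `A` of primes of `K` is at most `β`. -/
def UpperDensityLE (A : Set (HeightOneSpectrum (𝓞 K))) (β : ℝ) : Prop :=
  ∀ ε : ℝ, 0 < ε → ∀ᶠ N in atTop, avg (A.indicator fun _ => 1) N ≤ β + ε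

/-- `1`, `t - 1`, `t ^ 2 - 3 t + 1`: for `t = |α + β| ^ 2` the traces of `1`, `Ad`, `A⁴` on the class with
eigenvalues `α, β`. -/
noncomputable def even (a : Fin 3) (t : ℝ) : ℝ := ![1, t - 1, t ^ 2 - 3 * t + 1] a

/-- `(α, β)` is stable under `z ↦ 1 / conj z`, as for the Satake parameters of a unitary representation
of `GL(2)`. -/
def IsUnitary (α β : ℂ) : Prop :=
  α ≠ 0 ∧ β ≠ 0 ∧ (((starRingEnd ℂ) α)⁻¹ = α ∧ ((starRingEnd ℂ) β)⁻¹ = β ∨
    ((starRingEnd ℂ) α)⁻¹ = β ∧ ((starRingEnd ℂ) β)⁻¹ = α)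

/-- The representation with Satake parameters `α, β` is tempered. -/
def Tempered (α β : ℂ) : Prop := ‖α‖ = 1 ∧ ‖β‖ = 1

/-- What is known of the cusp forms: unitarity at the primes of `A` (a set of unramified primes), and the
averages over the primes of `A` (of density `δ`) of the products of the traces of `1`, `Ad π_i`, `A⁴ π_i`
with those of `1`, `Ad π_j`, `A⁴ π_j`. -/
structure KnownMoments {ι : Type} (A : Set (HeightOneSpectrum (𝓞 K))) (δ : ℝ)
    (α β : ι → HeightOneSpectrum (𝓞 K) → ℂ) : Prop where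
  density : Mean A (fun _ => 1) δ
  unitary : ∀ v ∈ A, ∀ i, IsUnitary (α i v) (β i v)
  same : ∀ (i : ι) (a b : Fin 3), Mean A
    (fun v => even a (‖α i v + β i v‖ ^ 2) * even b (‖α i v + β i v‖ ^ 2)) (if a = b then δ else 0)
  distinct : ∀ (i j : ι) (a b : Fin 3), i ≠ j → Mean A
    (fun v => even a (‖α i v + β i v‖ ^ 2) * even b (‖α j v + β j v‖ ^ 2))
      (if a = 0 ∧ b = 0 then δ else 0)

/-! ### averages -/

theorem finite_le (N : ℕ) :
    Finite {v : HeightOneSpectrum (𝓞 K) // Ideal.absNorm v.asIdeal ≤ N} := by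
  have h : {I : Ideal (𝓞 K) | Ideal.absNorm I ≤ N}.Finite := Ideal.finite_setOfPred_absNorm_le N
  have h' : Finite {I : Ideal (𝓞 K) // Ideal.absNorm I ≤ N} := h
  exact Finite.of_injective
    (fun v : {v : HeightOneSpectrum (𝓞 K) // Ideal.absNorm v.asIdeal ≤ N} =>
      (⟨v.1.asIdeal, v.2⟩ : {I : Ideal (𝓞 K) // Ideal.absNorm I ≤ N}))
    (fun v w hvw => Subtype.ext (HeightOneSpectrum.ext (congrArg Subtype.val hvw)))

theorem avg_add (g h : HeightOneSpectrum (𝓞 K) → ℝ) (N : ℕ) :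
    avg (fun v => g v + h v) N = avg g N + avg h N := by
  have := finite_le (K := K) N
  unfold avg
  rw [finsum_add_distrib (Set.toFinite _) (Set.toFinite _), add_div]

theorem avg_mul (c : ℝ) (g : HeightOneSpectrum (𝓞 K) → ℝ) (N : ℕ) :
    avg (fun v => c * g v) N = c * avg g N := by
  have := finite_le (K := K) N
  unfold avg
  rw [← mul_div_assoc, mul_finsum]

theorem avg_mono {g h : HeightOneSpectrum (𝓞 K) → ℝ} (hgh : ∀ v, g v ≤ h v) (N : ℕ) :
    avg g N ≤ avg h N := by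
  have := finite_le (K := K) N
  unfold avg
  exact div_le_div_of_nonneg_right (finsum_le_finsum' (Set.toFinite _) (Set.toFinite _)
    (fun v => hgh v.1)) (Nat.cast_nonneg _)

section
variable {A : Set (HeightOneSpectrum (𝓞 K))} {δ : ℝ}

theorem Mean.add {g h : HeightOneSpectrum (𝓞 K) → ℝ} {L M : ℝ} (hg : Mean A g L)
    (hh : Mean A h M) : Mean A (fun v => g v + h v) (L + M) := by
  unfold Mean at *
  have : avg (A.indicator fun v => g v + h v) =
      fun N => avg (A.indicator g) N + avg (A.indicator h) N := funext fun N => by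
    rw [← avg_add]
    congr 1
    funext v
    by_cases hv : v ∈ A <;> simp [hv]
  rw [this]
  exact hg.add hh

theorem Mean.mul {g : HeightOneSpectrum (𝓞 K) → ℝ} {L : ℝ} (c : ℝ) (hg : Mean A g L) :
    Mean A (fun v => c * g v) (c * L) := by
  unfold Mean at *
  have : avg (A.indicator fun v => c * g v) = fun N => c * avg (A.indicator g) N :=
    funext fun N => by
      rw [← avg_mul]
      congr 1
      funext v
      by_cases hv : v ∈ A <;> simp [hv]
  rw [this]
  exact hg.const_mul c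

theorem Mean.congr {g h : HeightOneSpectrum (𝓞 K) → ℝ} {L M : ℝ} (hg : Mean A g L)
    (h1 : ∀ v, h v = g v) (h2 : M = L) : Mean A h M := by
  rw [funext h1, h2]
  exact hg

theorem Mean.zero : Mean A (fun _ => (0 : ℝ)) 0 := by
  unfold Mean
  have : avg (A.indicator fun _ => (0 : ℝ)) = fun _ => (0 : ℝ) := funext fun N => by
    unfold avg
    simp
  rw [this]
  exact tendsto_const_nhds

theorem Mean.sum {κ : Type} (s : Finset κ) {g : κ → HeightOneSpectrum (𝓞 K) → ℝ} {L : κ → ℝ}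
    (h : ∀ i ∈ s, Mean A (g i) (L i)) : Mean A (fun v => ∑ i ∈ s, g i v) (∑ i ∈ s, L i) := by
  classical
  induction s using Finset.induction_on with
  | empty => simpa using (Mean.zero (A := A))
  | insert i s hi ih =>
    simp_rw [Finset.sum_insert hi]
    exact (h i (Finset.mem_insert_self _ _)).add
      (ih fun j hj => h j (Finset.mem_insert_of_mem hj))

/-- Chebyshev's inequality for averages over primes. -/
theorem upperDensity_of {F : HeightOneSpectrum (𝓞 K) → ℝ} {M : ℝ} (hF : Mean A F M)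
    {E : Set (HeightOneSpectrum (𝓞 K))} (h0 : ∀ v, 0 ≤ F v) (h1 : ∀ v ∈ A, v ∈ E → 1 ≤ F v) :
    UpperDensityLE {v | v ∈ A ∧ v ∈ E} M := by
  intro ε hε
  have h2 : ∀ᶠ N in atTop, avg (A.indicator F) N < M + ε :=
    (tendsto_order.1 hF).2 _ (by linarith)
  filter_upwards [h2] with N hN
  refine le_trans (avg_mono (fun v => ?_) N) hN.le
  by_cases hv : v ∈ A
  · by_cases hE : v ∈ E
    · have : v ∈ {v | v ∈ A ∧ v ∈ E} := ⟨hv, hE⟩
      rw [Set.indicator_of_mem this, Set.indicator_of_mem hv]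
      exact h1 v hv hE
    · have : v ∉ {v | v ∈ A ∧ v ∈ E} := fun h => hE h.2
      rw [Set.indicator_of_notMem this, Set.indicator_of_mem hv]
      exact h0 v
  · have : v ∉ {v | v ∈ A ∧ v ∈ E} := fun h => hv h.1
    rw [Set.indicator_of_notMem this, Set.indicator_of_notMem hv]

end

/-! ### the parameters of a non-tempered component -/

theorem norm_add_gt {α β : ℂ} (h : IsUnitary α β) (ht : ¬ Tempered α β) : 4 < ‖α + β‖ ^ 2 := by
  obtain ⟨h1, h2, h3⟩ := h
  rcases h3 with ⟨h4, h5⟩ | ⟨h4, -⟩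
  · exfalso
    apply ht
    have key : ∀ z : ℂ, z ≠ 0 → ((starRingEnd ℂ) z)⁻¹ = z → ‖z‖ = 1 := by
      intro z hz h
      have h6 : ‖z‖⁻¹ = ‖z‖ := by
        have := congrArg norm h
        rwa [norm_inv, RCLike.norm_conj] at this
      have h7 : 0 < ‖z‖ := norm_pos_iff.2 hz
      have h8 : ‖z‖ * ‖z‖ = 1 := by
        nth_rewrite 1 [← h6]
        exact inv_mul_cancel₀ h7.ne'
      nlinarith
    exact ⟨key α h1 h4, key β h2 h5⟩
  · have h7 : 0 < ‖α‖ := norm_pos_iff.2 h1
    have hβ : β = (((‖α‖ ^ 2)⁻¹ : ℝ) : ℂ) * α := by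
      rw [← h4]
      have h8 : (starRingEnd ℂ) α ≠ 0 := (map_ne_zero _).2 h1
      have h9 : α * (starRingEnd ℂ) α = ((‖α‖ ^ 2 : ℝ) : ℂ) := by
        rw [Complex.mul_conj, Complex.normSq_eq_norm_sq]
      rw [Complex.ofReal_inv, ← h9]
      field_simp
    have h10 : α + β = (((1 + (‖α‖ ^ 2)⁻¹ : ℝ)) : ℂ) * α := by
      rw [hβ]; push_cast; ring
    have h11 : ‖α + β‖ = (1 + (‖α‖ ^ 2)⁻¹) * ‖α‖ := by
      rw [h10, norm_mul, Complex.norm_real, Real.norm_of_nonneg (by positivity)]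
    have h12 : ‖β‖ = ‖α‖⁻¹ := by
      rw [← h4, norm_inv, RCLike.norm_conj]
    have h13 : ‖α‖ ≠ 1 := by
      intro h
      exact ht ⟨h, by rw [h12, h, inv_one]⟩
    have h14 : ‖α + β‖ = ‖α‖ + ‖α‖⁻¹ := by
      rw [h11]; field_simp
    have h15 : 2 < ‖α‖ + ‖α‖⁻¹ := by
      have h16 : ‖α‖ * ‖α‖⁻¹ = 1 := mul_inv_cancel₀ h7.ne'
      have h17 : 0 < ‖α‖⁻¹ := inv_pos.2 h7
      have h18 : ‖α‖ - ‖α‖⁻¹ ≠ 0 := by
        intro h
        have h19 : ‖α‖ = ‖α‖⁻¹ := by linarith
        rw [← h19] at h16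
        exact h13 (by nlinarith)
      have h20 : 0 < (‖α‖ - ‖α‖⁻¹) ^ 2 := by positivity
      nlinarith
    rw [h14]
    nlinarith

/-! ### the second moment -/

section
variable {A : Set (HeightOneSpectrum (𝓞 K))} {δ : ℝ} {r : ℕ}
  {α β : Fin r → HeightOneSpectrum (𝓞 K) → ℂ}

/-- `p λ(Ad π_i) + q λ(A⁴ π_i)` -/
noncomputable def hh (α β : Fin r → HeightOneSpectrum (𝓞 K) → ℂ) (p q : ℝ) (i : Fin r)
    (v : HeightOneSpectrum (𝓞 K)) : ℝ :=
  p * even 1 (‖α i v + β i v‖ ^ 2) + q * even 2 (‖α i v + β i v‖ ^ 2)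

theorem mean_hh (h : KnownMoments A δ α β) (p q : ℝ) (i : Fin r) : Mean A (hh α β p q i) 0 := by
  have h1 := (h.same i 1 0).mul p
  have h2 := (h.same i 2 0).mul q
  refine (h1.add h2).congr (fun v => ?_) ?_
  · simp [hh, even]
  · simp

theorem mean_hh_mul (h : KnownMoments A δ α β) (p q : ℝ) (i j : Fin r) :
    Mean A (fun v => hh α β p q i v * hh α β p q j v) (if i = j then δ * (p ^ 2 + q ^ 2) else 0) := by
  by_cases hij : i = j
  · subst hij
    have h1 := (h.same i 1 1).mul (p * p)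
    have h2 := (h.same i 1 2).mul (2 * p * q)
    have h3 := (h.same i 2 2).mul (q * q)
    refine ((h1.add h2).add h3).congr (fun v => ?_) ?_
    · simp only [hh]; ring
    · simp; ring
  · have h1 := (h.distinct i j 1 1 hij).mul (p * p)
    have h2 := (h.distinct i j 1 2 hij).mul (p * q)
    have h3 := (h.distinct i j 2 1 hij).mul (p * q)
    have h4 := (h.distinct i j 2 2 hij).mul (q * q)
    refine (((h1.add h2).add h3).add h4).congr (fun v => ?_) ?_
    · simp only [hh]; ring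
    · simp [hij]

/-- the mean of the square of `∑_i (p λ(Ad π_i) + q λ(A⁴ π_i)) + c` -/
theorem mean_sq (h : KnownMoments A δ α β) (p q c : ℝ) :
    Mean A (fun v => (∑ i, hh α β p q i v + c) ^ 2) (δ * (r * (p ^ 2 + q ^ 2) + c ^ 2)) := by
  have h1 : Mean A (fun v => ∑ i, ∑ j, hh α β p q i v * hh α β p q j v)
      (∑ i : Fin r, ∑ j : Fin r, if i = j then δ * (p ^ 2 + q ^ 2) else 0) :=
    Mean.sum _ fun i _ => Mean.sum _ fun j _ => mean_hh_mul h p q i j
  have h2 : Mean A (fun v => ∑ i, hh α β p q i v) (∑ _i : Fin r, 0) :=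
    Mean.sum _ fun i _ => mean_hh h p q i
  refine ((h1.add (h2.mul (2 * c))).add (h.density.mul (c ^ 2))).congr (fun v => ?_) ?_
  · rw [← Finset.sum_mul_sum]; ring
  · simp; ring

theorem even_one (t : ℝ) : even 1 t = t - 1 := rfl

theorem even_two (t : ℝ) : even 2 t = t ^ 2 - 3 * t + 1 := rfl

theorem all_large (h : KnownMoments A δ α β) {B : ℝ} (hB : 2 ≤ B) :
    UpperDensityLE {v | v ∈ A ∧ ∀ i, B ≤ ‖α i v + β i v‖}
      (δ / (1 + r * ((B ^ 2 - 1) ^ 2 + (B ^ 4 - 3 * B ^ 2 + 1) ^ 2))) := by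
  set p : ℝ := B ^ 2 - 1 with hp
  set q : ℝ := B ^ 4 - 3 * B ^ 2 + 1 with hq
  have hB2 : 4 ≤ B ^ 2 := by nlinarith
  have hp0 : 0 ≤ p := by rw [hp]; linarith
  have hq0 : 0 ≤ q := by rw [hq]; nlinarith
  have hs0 : 0 ≤ p ^ 2 + q ^ 2 := by positivity
  have hr0 : (0 : ℝ) ≤ r := Nat.cast_nonneg r
  have hD : 0 < 1 + (r : ℝ) * (p ^ 2 + q ^ 2) := by positivity
  have h1 := (mean_sq h p q 1).mul (((1 + (r : ℝ) * (p ^ 2 + q ^ 2)) ^ 2)⁻¹)
  have h2 : Mean A (fun v => ((1 + (r : ℝ) * (p ^ 2 + q ^ 2)) ^ 2)⁻¹ *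
      (∑ i, hh α β p q i v + 1) ^ 2) (δ / (1 + r * (p ^ 2 + q ^ 2))) := by
    refine h1.congr (fun v => rfl) ?_
    field_simp
    ring
  refine upperDensity_of h2 (E := {v | ∀ i, B ≤ ‖α i v + β i v‖}) (fun v => by positivity)
    fun v _ hv => ?_
  rw [inv_mul_eq_div, le_div_iff₀ (by positivity), one_mul]
  have h3 : (r : ℝ) * (p ^ 2 + q ^ 2) ≤ ∑ i, hh α β p q i v := by
    have h4 : ∑ _i : Fin r, (p ^ 2 + q ^ 2) = (r : ℝ) * (p ^ 2 + q ^ 2) := by
      simp only [Finset.sum_const, Finset.card_univ, Fintype.card_fin, nsmul_eq_mul]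
    rw [← h4]
    refine Finset.sum_le_sum fun i _ => ?_
    have h5 : B ^ 2 ≤ ‖α i v + β i v‖ ^ 2 := pow_le_pow_left₀ (by linarith) (hv i) 2
    have h6 : p ≤ even 1 (‖α i v + β i v‖ ^ 2) := by rw [even_one, hp]; linarith
    have h7 : q ≤ even 2 (‖α i v + β i v‖ ^ 2) := by
      rw [even_two, hq]
      nlinarith
    unfold hh
    nlinarith
  have h8 : 0 ≤ (r : ℝ) * (p ^ 2 + q ^ 2) := by positivity
  refine pow_le_pow_left₀ hD.le ?_ 2
  linarith

/-- The number of the `i` such that the `i`-th form is not tempered at `v`. -/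
noncomputable def bad (α β : Fin r → HeightOneSpectrum (𝓞 K) → ℂ) (v : HeightOneSpectrum (𝓞 K)) : ℕ :=
  {i : Fin r | ¬ Tempered (α i v) (β i v)}.ncard

omit [NumberField K] in
theorem bad_le (g : Fin r → ℝ) (v : HeightOneSpectrum (𝓞 K)) (h0 : ∀ i, 0 ≤ g i)
    (h1 : ∀ i, ¬ Tempered (α i v) (β i v) → 1 ≤ g i) : (bad α β v : ℝ) ≤ ∑ i, g i := by
  classical
  unfold bad
  have h2 : {i : Fin r | ¬ Tempered (α i v) (β i v)}.ncard =
      (Finset.univ.filter fun i => ¬ Tempered (α i v) (β i v)).card := by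
    rw [← Set.ncard_coe_finset]
    congr 1
    ext i
    simp
  rw [h2, Finset.card_eq_sum_ones, Nat.cast_sum, Finset.sum_filter]
  refine Finset.sum_le_sum fun i _ => ?_
  by_cases hi : Tempered (α i v) (β i v)
  · simpa [hi] using h0 i
  · simpa [hi] using h1 i hi

theorem many_bad (h : KnownMoments A δ α β) (hr : 1 ≤ r) {θ : ℝ} (hθ : 1 / 10 < θ) :
    UpperDensityLE {v | v ∈ A ∧ θ * r ≤ bad α β v}
      (δ * (153 / (153 + 50 * (10 * θ - 1) ^ 2 * r))) := by
  have hr0 : (0 : ℝ) < r := by exact_mod_cast hr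
  set u : ℝ := θ - 1 / 10 with hu
  have hu0 : 0 < u := by rw [hu]; linarith
  set c : ℝ := 153 / 5000 / u with hc
  have hc0 : 0 < c := by rw [hc]; positivity
  have hD : 0 < u * r + c := by positivity
  have h1 := (mean_sq h (15 / 100) (9 / 100) c).mul (((u * r + c) ^ 2)⁻¹)
  have h2 : Mean A (fun v => ((u * r + c) ^ 2)⁻¹ *
      (∑ i, hh α β (15 / 100) (9 / 100) i v + c) ^ 2)
        (δ * (153 / (153 + 50 * (10 * θ - 1) ^ 2 * r))) := by
    refine h1.congr (fun v => rfl) ?_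
    have h3 : 10 * θ - 1 = 10 * u := by rw [hu]; ring
    have h4 : 0 < 153 + 50 * (10 * u) ^ 2 * (r : ℝ) := by positivity
    rw [h3, hc]
    have h5 : u * r + 153 / 5000 / u = (5000 * u ^ 2 * r + 153) / (5000 * u) := by
      field_simp
    have h6 : 0 < 5000 * u ^ 2 * (r : ℝ) + 153 := by positivity
    rw [h5]
    field_simp
    ring
  refine upperDensity_of h2 (E := {v | θ * r ≤ bad α β v}) (fun v => by positivity)
    fun v hvA hv => ?_
  rw [inv_mul_eq_div, le_div_iff₀ (by positivity), one_mul]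
  refine pow_le_pow_left₀ hD.le ?_ 2
  have h3 : (bad α β v : ℝ) ≤ ∑ i, (hh α β (15 / 100) (9 / 100) i v + 1 / 10) := by
    refine bad_le _ v (fun i => ?_) (fun i hi => ?_)
    · have : hh α β (15 / 100) (9 / 100) i v + 1 / 10 =
          ((3 * ‖α i v + β i v‖ ^ 2 - 2) / 10) ^ 2 := by
        rw [hh, even_one, even_two]; ring
      rw [this]
      positivity
    · have : hh α β (15 / 100) (9 / 100) i v + 1 / 10 =
          ((3 * ‖α i v + β i v‖ ^ 2 - 2) / 10) ^ 2 := by
        rw [hh, even_one, even_two]; ring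
      rw [this]
      have h4 := norm_add_gt (h.unitary v hvA i) hi
      have h5 : 1 ≤ (3 * ‖α i v + β i v‖ ^ 2 - 2) / 10 := by linarith
      nlinarith
  rw [Finset.sum_add_distrib] at h3
  simp only [Finset.sum_const, Finset.card_univ, Fintype.card_fin, nsmul_eq_mul] at h3
  have h4 : θ * r ≤ bad α β v := hv
  have h5 : u * r = θ * r - r * (1 / 10) := by rw [hu]; ring
  linarith

theorem some_bad (h : KnownMoments A δ α β) (hr : 1 ≤ r) {θ : ℝ} (hθ : 0 < θ) :
    UpperDensityLE {v | v ∈ A ∧ θ * r ≤ bad α β v} (δ / (35 * θ)) := by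
  have hr0 : (0 : ℝ) < r := by exact_mod_cast hr
  have h1 : ∀ i : Fin r, Mean A (fun v => ((1 + hh α β 3 5 i v) / 35) ^ 2) (δ / 35) := by
    intro i
    have h2 := ((h.density.add ((mean_hh h 3 5 i).mul 2)).add
      (mean_hh_mul h 3 5 i i)).mul (1 / 35 ^ 2)
    refine h2.congr (fun v => by ring) ?_
    simp; ring
  have h2 := (Mean.sum Finset.univ fun i _ => h1 i).mul (1 / (θ * r))
  have h3 : Mean A (fun v => 1 / (θ * r) * ∑ i, ((1 + hh α β 3 5 i v) / 35) ^ 2)
      (δ / (35 * θ)) := by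
    refine h2.congr (fun v => rfl) ?_
    simp only [Finset.sum_const, Finset.card_univ, Fintype.card_fin, nsmul_eq_mul]
    field_simp
  refine upperDensity_of h3 (E := {v | θ * r ≤ bad α β v})
    (fun v => mul_nonneg (by positivity) (Finset.sum_nonneg fun i _ => by positivity))
    fun v hvA hv => ?_
  have h4 : (bad α β v : ℝ) ≤ ∑ i, ((1 + hh α β 3 5 i v) / 35) ^ 2 := by
    refine bad_le _ v (fun i => by positivity) (fun i hi => ?_)
    have h4 := norm_add_gt (h.unitary v hvA i) hi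
    have h5 : 1 ≤ (1 + hh α β 3 5 i v) / 35 := by
      rw [hh, even_one, even_two]
      nlinarith
    nlinarith
  have h5 : θ * r ≤ bad α β v := hv
  have h6 : 0 < θ * r := by positivity
  rw [one_div, inv_mul_eq_div, le_div_iff₀ h6, one_mul]
  linarith

end

/-- **Ramanujan for many forms.**  Let `A` be a set of unramified primes of `K` of density `δ` (all of
them, or those in a ray class) and `π_1, ..., π_r` cusp forms on `GL(2)` with `KnownMoments`.  The set of
the primes of `A` at which all `|a_v(π_i)| ≥ B` (`B ≥ 2`) has upper density at most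
`δ / (1 + r (U_2(B) ^ 2 + U_4(B) ^ 2))`; the set of those at which all `π_i` are non-tempered at most
`δ / (1 + 34 r)`; the set of those at which at least `θ r` of the `π_i` are non-tempered at most
`δ / (35 θ)`, and at most `153 δ / (153 + 50 (10 θ - 1) ^ 2 r)` if `θ > 1 / 10`. -/
theorem result {r : ℕ} (hr : 1 ≤ r) {A : Set (HeightOneSpectrum (𝓞 K))} {δ : ℝ}
    {α β : Fin r → HeightOneSpectrum (𝓞 K) → ℂ} (h : KnownMoments A δ α β) :
    (∀ B : ℝ, 2 ≤ B → UpperDensityLE {v | v ∈ A ∧ ∀ i, B ≤ ‖α i v + β i v‖}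
      (δ / (1 + r * ((B ^ 2 - 1) ^ 2 + (B ^ 4 - 3 * B ^ 2 + 1) ^ 2)))) ∧
    UpperDensityLE {v | v ∈ A ∧ ∀ i, ¬ Tempered (α i v) (β i v)} (δ / (1 + 34 * r)) ∧
    ∀ θ : ℝ, 0 < θ →
      UpperDensityLE {v | v ∈ A ∧ θ * r ≤ {i | ¬ Tempered (α i v) (β i v)}.ncard}
        (δ / (35 * θ)) ∧
      (1 / 10 < θ →
        UpperDensityLE {v | v ∈ A ∧ θ * r ≤ {i | ¬ Tempered (α i v) (β i v)}.ncard}
          (δ * (153 / (153 + 50 * (10 * θ - 1) ^ 2 * r)))) := by
  refine ⟨fun B hB => all_large h hB, ?_, fun θ hθ => ⟨some_bad h hr hθ, many_bad h hr⟩⟩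
  have h1 := all_large h (le_refl (2 : ℝ))
  intro ε hε
  filter_upwards [h1 ε hε] with N hN
  have h2 : δ / (1 + r * (((2 : ℝ) ^ 2 - 1) ^ 2 + (2 ^ 4 - 3 * 2 ^ 2 + 1) ^ 2)) =
      δ / (1 + 34 * r) := by
    congr 1; ring
  rw [h2] at hN
  have hsub : {v | v ∈ A ∧ ∀ i, ¬ Tempered (α i v) (β i v)} ⊆
      {v | v ∈ A ∧ ∀ i, 2 ≤ ‖α i v + β i v‖} := fun v hv => ⟨hv.1, fun i => by
    have h3 := norm_add_gt (h.unitary v hv.1 i) (hv.2 i)
    nlinarith [norm_nonneg (α i v + β i v)]⟩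
  exact le_trans (avg_mono (fun v => Set.indicator_le_indicator_of_subset hsub
    (fun _ => zero_le_one) v) N) hN

end Pool.Agent.Results.MP_8410ab_nt.ManyForms
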