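import Mathlib
import Pool.Agent.TH949.RES.GL3

/-!
# The Ramanujan conjecture for `GL(3)` over number fields: more than `x^{1/2}` tempered places

Let `K` be a number field of degree `d`, let `π` be a unitary cuspidal automorphic representation of `GL_3`
over `K`, unramified at the finite places outside the finite set `S`, with Satake parameters `α_{i,v}` and Hecke
eigenvalues `a_v = ∑_i α_{i,v}`, `v ∉ S`. The component `π_v` is tempered iff `|α_{i,v}| = 1` for `i = 1, 2, 3`.
Write `N v` for the norm of `v` (`qq v` below). We show for every `c < 1/2 + 1/(16 d)`: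

* the series `∑_v max(0, 1 - |a_v|²) (N v)^{-c}` diverges;
* the number of the places `v` with `N v ≤ x`, `|a_v| < 1` is not `O(x^c)`; at these places `π_v` is tempered.

For `K = ℚ` the exponent is `9/16`. Known before: infinitely many tempered places for `K = ℚ` (Ramakrishnan); the
starting result `MP_08cfa9_nt.TemperedPrimesGL3` (`K = ℚ`, `c < 1/2`), and `MP_8410ab_nt.TemperedPlacesGL3` of
this run (every `K`, the scale `x^{1/2}`).

The structure `AutomorphicGL3` lists what is used of `π`: the unramified components are unitary; the
Rankin-Selberg series converges absolutely for `Re s > 1` (Jacquet, Shalika); the finite part `G(s)` of the adjoint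
`L`-function `L(s, π × π~) / ζ_K(s)` is holomorphic in `Re s ≥ 1/2` (Ginzburg, Jiang; Hundley, Zhang, for every
number field), its Euler factors at the ramified places have degree at most `8`, it has a functional equation
with `8 d` factors `Γ_ℝ(s + κ_j)` and is of polynomial growth in vertical strips, away from the real axis
(Jacquet, Piatetski-Shapiro, Shalika, Moeglin, Waldspurger, and Phragmén-Lindelöf).

The proof: a nontempered place has `|∑_i α_{i,v}^k| ≥ 1` for all `k`, so, if the series converges for some `c > 1/2`,
Landau's lemma shows that `log G` is an absolutely convergent Dirichlet series in `Re s > c`, and so is `G`. We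
integrate `G(1 - s) exp((s - iT)² / D²)`, `D = T / log T`, along `Re s = σ > c` and along `Re s = -D`. The latter
integral is `≍ D`. By the functional equation the former is an absolutely convergent combination of oscillatory
integrals, each of which is `O(T^{8 d (σ - 1/2) + 1/2})` by the second derivative test.
So `8 d (σ - 1/2) + 1/2 ≥ 1`.
-/

set_option autoImplicit false

namespace Pool.Agent.Results.MP_8410ab_nt.SmallEigenvaluesGL3

open NumberField IsDedekindDomain Pool.Agent.TH861.GL3 Pool.Agent.TH949.RES

/-- **Places with small Hecke eigenvalues for `GL(3)` over a number field.** -/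
theorem result {K : Type} [Field K] [NumberField K] {S : Finset (HeightOneSpectrum (𝓞 K))}
    (α : PL S → Fin 3 → ℂ) (h : AutomorphicGL3 α) (c : ℝ)
    (hc : c < 1 / 2 + 1 / (16 * (Module.finrank ℚ K : ℝ))) :
    (¬ Summable fun v : PL S => max 0 (1 - ‖∑ i, α v i‖ ^ 2) * (qq v.1 : ℝ) ^ (-c)) ∧
    (∀ C X : ℝ, ∃ x : ℝ, X ≤ x ∧
      C * x ^ c < (({v : PL S | (qq v.1 : ℝ) ≤ x ∧ ‖∑ i, α v i‖ < 1}.ncard : ℕ) : ℝ)) ∧
    ∀ v : PL S, ‖∑ i, α v i‖ < 1 → ∀ i, ‖α v i‖ = 1 := by
  have hd : (1 : ℝ) ≤ (Module.finrank ℚ K : ℝ) := by
    exact_mod_cast (Module.finrank_pos : 0 < Module.finrank ℚ K)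
  refine ⟨small_diverge h hc, ?_, fun v hv => tempered_of_small h hv⟩
  refine count_large (N := fun v : PL S => qq v.1) (fun v => (two_le_qq v.1).trans' (by norm_num))
    (fun b => ?_) (fun v : PL S => ‖∑ i, α v i‖ < 1) (by positivity)
    (fun c hc => small_diverge' h hc) c hc
  exact (finite_nm_le K b).preimage Subtype.val_injective.injOn

end Pool.Agent.Results.MP_8410ab_nt.SmallEigenvaluesGL3
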